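import Mathlib
import Pool.Agent.H306R2.SM.Defs
import Pool.Agent.H306R2.ZetaGrowth

set_option autoImplicit false

/-! Project SX, task SHP: the Gamma windows (part A). -/

namespace Pool.Agent.Y475.SX

open Finset Filter Topology MeasureTheory
open Pool.Agent.H306R2.SM (om cl)

noncomputable section

lemma om_nonneg (k : ℕ) {δ t : ℝ} (hδ : 0 < δ) (ht : 0 ≤ t) : 0 ≤ om k δ t := by
  unfold om; positivity

lemma om_cont (k : ℕ) (δ : ℝ) : Continuous (om k δ) := by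
  unfold om; fun_prop

/-- integrability of `om * (1+t)^A` -/
lemma om_poly (k A : ℕ) {δ : ℝ} (hδ : 0 < δ) :
    IntegrableOn (fun t : ℝ => om k δ t * (1 + t) ^ A) (Set.Ioi 0) := by
  have h1 : ∀ j : ℕ, IntegrableOn (fun t : ℝ => t ^ (k + j) * Real.exp (-(δ * t))) (Set.Ioi 0) := by
    intro j
    have := Real.GammaIntegral_convergent (s := (k + j : ℕ) + 1) (by positivity)
    have h2 := (integrableOn_Ioi_comp_mul_left_iff (fun x : ℝ => Real.exp (-x) * x ^ (((k + j : ℕ):ℝ) + 1 - 1)) 0 hδ).mpr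
      (by simpa using this)
    have h3 : IntegrableOn (fun x => (δ ^ (k + j))⁻¹ *
        (Real.exp (-(δ * x)) * (δ * x) ^ (((k + j : ℕ) : ℝ) + 1 - 1))) (Set.Ioi 0) :=
      h2.const_mul ((δ ^ (k + j))⁻¹)
    refine h3.congr_fun (fun t ht => ?_) measurableSet_Ioi
    have ht0 : 0 < t := ht
    simp only [add_sub_cancel_right]
    rw [Real.rpow_natCast, mul_pow]
    field_simp
  have h4 : (fun t : ℝ => om k δ t * (1 + t) ^ A) = fun t : ℝ =>
      ∑ j ∈ range (A + 1), (δ ^ (k + 1) / (k.factorial : ℝ) * (A.choose j : ℝ)) *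
        (t ^ (k + j) * Real.exp (-(δ * t))) := by
    funext t
    rw [add_comm 1 t, add_pow, mul_sum]
    refine sum_congr rfl fun j _ => ?_
    unfold om
    rw [pow_add]
    ring
  rw [h4]
  exact integrable_finsetSum _ fun j _ => (h1 j).const_mul _

lemma cl_cont : Continuous cl := by unfold cl; fun_prop

lemma zeta_cont : Continuous (fun t : ℝ => riemannZeta (cl t)) := by
  rw [continuous_iff_continuousAt]
  intro t
  have h1 : cl t ≠ 1 := by
    intro h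
    have := congrArg Complex.re h
    simp [cl] at this
  have h2 := (differentiableAt_riemannZeta h1).continuousAt
  exact ContinuousAt.comp (f := cl) h2 cl_cont.continuousAt

lemma zeta_cl_bound (t : ℝ) (_ht : 0 ≤ t) : ‖riemannZeta (cl t)‖ ≤ 24 * (1 + t) ^ 2 := by
  have h := Pool.Agent.H306R2.zeta_norm_le (s := cl t) (by simp [cl]) (by
    have h1 : |(cl t - 1).re| ≤ ‖cl t - 1‖ := Complex.abs_re_le_norm _
    have h2 : |(cl t - 1).re| = 1 / 2 := by
      simp only [cl, Complex.sub_re, Complex.add_re, Complex.mul_re, Complex.ofReal_re,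
        Complex.I_re, mul_zero, Complex.ofReal_im, Complex.I_im, mul_one, sub_self, add_zero,
        Complex.one_re]
      norm_num
    linarith)
  have h3 : ‖cl t‖ ≤ 1 / 2 + t := by
    unfold cl
    refine (norm_add_le _ _).trans ?_
    rw [norm_mul, Complex.norm_real, Complex.norm_I, mul_one, Real.norm_of_nonneg _ht]
    norm_num
  refine h.trans ?_
  have h4 : (‖cl t‖ + 1) ^ 2 ≤ (2 * (1 + t)) ^ 2 := by
    apply pow_le_pow_left₀ (by positivity)
    linarith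
  nlinarith

/-! ### moments of the window in the parameter -/

lemma om_rp (κ m : ℕ) (hκ : 1 ≤ κ) {t x : ℝ} (ht : 0 < t) (hx : 0 < x) :
    om κ (κ / x) t * (t / x) ^ m = (|(-1:ℝ)| * x ^ ((-1:ℝ) - 1)) •
      (fun y : ℝ => (κ:ℝ) ^ (κ + 1) * t ^ (κ + m) / (κ.factorial : ℝ) *
        (y ^ (((κ + m : ℕ) : ℝ) - 1) * Real.exp (-((κ * t) * y)))) (x ^ (-1:ℝ)) := by
  have hκ0 : (0:ℝ) < κ := by exact_mod_cast hκ
  have e1 : (x ^ (-1:ℝ)) ^ (((κ + m : ℕ) : ℝ) - 1) = (x ^ (κ + m))⁻¹ * x := by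
    rw [← Real.rpow_mul hx.le, ← Real.rpow_natCast, ← Real.rpow_neg hx.le]
    nth_rewrite 3 [← Real.rpow_one x]
    rw [← Real.rpow_add hx]
    congr 1
    ring
  have e2 : x ^ ((-1:ℝ) - 1) = (x ^ 2)⁻¹ := by
    rw [← Real.rpow_natCast, ← Real.rpow_neg hx.le]
    norm_num
  simp only [smul_eq_mul]
  rw [e1, e2, Real.rpow_neg_one]
  unfold om
  have e3 : -(κ / x * t) = -(κ * t * x⁻¹) := by field_simp
  rw [e3]
  have h1 : |(-1:ℝ)| = 1 := by norm_num
  rw [h1]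
  generalize Real.exp (-(κ * t * x⁻¹)) = E
  rw [div_pow, div_pow, pow_add t, pow_add x, pow_add x, pow_one]
  have hf : (0:ℝ) < (κ.factorial : ℝ) := by positivity
  field_simp

lemma om_mom (κ m : ℕ) (hκ : 1 ≤ κ) {t : ℝ} (ht : 0 < t) :
    ∫ x in Set.Ioi (0:ℝ), om κ (κ / x) t * (t / x) ^ m =
      (κ:ℝ) ^ (κ + 1) * t ^ (κ + m) / (κ.factorial : ℝ) * ((1 / (κ * t)) ^ (κ + m) *
        ((κ + m - 1).factorial : ℝ)) := by
  have hκ0 : (0:ℝ) < κ := by exact_mod_cast hκ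
  have h1 : ∫ x in Set.Ioi (0:ℝ), om κ (κ / x) t * (t / x) ^ m = ∫ x in Set.Ioi (0:ℝ),
      (|(-1:ℝ)| * x ^ ((-1:ℝ) - 1)) •
      (fun y : ℝ => (κ:ℝ) ^ (κ + 1) * t ^ (κ + m) / (κ.factorial : ℝ) *
        (y ^ (((κ + m : ℕ) : ℝ) - 1) * Real.exp (-((κ * t) * y)))) (x ^ (-1:ℝ)) :=
    setIntegral_congr_fun measurableSet_Ioi fun x hx => om_rp κ m hκ ht hx
  rw [h1, integral_comp_rpow_Ioi (fun y : ℝ => (κ:ℝ) ^ (κ + 1) * t ^ (κ + m) / (κ.factorial : ℝ) *
        (y ^ (((κ + m : ℕ) : ℝ) - 1) * Real.exp (-((κ * t) * y)))) (by norm_num : (-1:ℝ) ≠ 0),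
    integral_const_mul,
    Real.integral_rpow_mul_exp_neg_mul_Ioi (by positivity) (by positivity)]
  have h2 : Real.Gamma ((κ + m : ℕ) : ℝ) = ((κ + m - 1).factorial : ℝ) := by
    obtain ⟨r, hr⟩ : ∃ r, κ + m = r + 1 := ⟨κ + m - 1, by omega⟩
    rw [hr]
    push_cast
    rw [Real.Gamma_nat_eq_factorial]
    try simp
  rw [h2, Real.rpow_natCast]

lemma om_mom0 (κ : ℕ) (hκ : 1 ≤ κ) {t : ℝ} (ht : 0 < t) :
    ∫ x in Set.Ioi (0:ℝ), om κ (κ / x) t = 1 := by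
  have h := om_mom κ 0 hκ ht
  simp only [pow_zero, mul_one, add_zero] at h
  rw [h]
  have hκ0 : (0:ℝ) < κ := by exact_mod_cast hκ
  obtain ⟨r, rfl⟩ : ∃ r, κ = r + 1 := ⟨κ - 1, by omega⟩
  rw [Nat.factorial_succ]
  have : (0:ℝ) < (r.factorial : ℝ) := by positivity
  simp only [Nat.add_sub_cancel]
  rw [div_pow, mul_pow, one_pow]
  push_cast
  push_cast at hκ0
  field_simp
  ring

lemma om_mom1 (κ : ℕ) (hκ : 1 ≤ κ) {t : ℝ} (ht : 0 < t) :
    ∫ x in Set.Ioi (0:ℝ), om κ (κ / x) t * (t / x) = 1 := by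
  have h := om_mom κ 1 hκ ht
  simp only [pow_one] at h
  rw [h]
  have hκ0 : (0:ℝ) < κ := by exact_mod_cast hκ
  have : (0:ℝ) < (κ.factorial : ℝ) := by positivity
  simp only [Nat.add_sub_cancel]
  rw [div_pow, mul_pow, one_pow]
  field_simp

lemma om_mom2 (κ : ℕ) (hκ : 1 ≤ κ) {t : ℝ} (ht : 0 < t) :
    ∫ x in Set.Ioi (0:ℝ), om κ (κ / x) t * (t / x) ^ 2 = 1 + 1 / (κ : ℝ) := by
  rw [om_mom κ 2 hκ ht]
  have hκ0 : (0:ℝ) < κ := by exact_mod_cast hκ
  have : (0:ℝ) < (κ.factorial : ℝ) := by positivity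
  have e : κ + 2 - 1 = κ + 1 := by omega
  rw [e, Nat.factorial_succ, div_pow, mul_pow, one_pow]
  push_cast
  field_simp
  ring

lemma om_int0 (κ : ℕ) (hκ : 1 ≤ κ) {t : ℝ} (ht : 0 < t) :
    IntegrableOn (fun x => om κ (κ / x) t) (Set.Ioi (0:ℝ)) :=
  Integrable.of_integral_ne_zero (by rw [om_mom0 κ hκ ht]; norm_num)

lemma om_int1 (κ : ℕ) (hκ : 1 ≤ κ) {t : ℝ} (ht : 0 < t) :
    IntegrableOn (fun x => om κ (κ / x) t * (t / x)) (Set.Ioi (0:ℝ)) :=
  Integrable.of_integral_ne_zero (by rw [om_mom1 κ hκ ht]; norm_num)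

lemma om_int2 (κ : ℕ) (hκ : 1 ≤ κ) {t : ℝ} (ht : 0 < t) :
    IntegrableOn (fun x => om κ (κ / x) t * (t / x) ^ 2) (Set.Ioi (0:ℝ)) :=
  Integrable.of_integral_ne_zero (by rw [om_mom2 κ hκ ht]; positivity)

lemma om_var_int (κ : ℕ) (hκ : 1 ≤ κ) {t : ℝ} (ht : 0 < t) :
    IntegrableOn (fun x => om κ (κ / x) t * (t / x - 1) ^ 2) (Set.Ioi (0:ℝ)) := by
  have h : (fun x => om κ (κ / x) t * (t / x - 1) ^ 2) = fun x =>
      om κ (κ / x) t * (t / x) ^ 2 - 2 * (om κ (κ / x) t * (t / x)) + om κ (κ / x) t := by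
    funext x; ring
  rw [h]
  exact ((om_int2 κ hκ ht).sub ((om_int1 κ hκ ht).const_mul 2)).add (om_int0 κ hκ ht)

lemma om_var (κ : ℕ) (hκ : 1 ≤ κ) {t : ℝ} (ht : 0 < t) :
    ∫ x in Set.Ioi (0:ℝ), om κ (κ / x) t * (t / x - 1) ^ 2 = 1 / (κ : ℝ) := by
  have h : ∀ x, om κ (κ / x) t * (t / x - 1) ^ 2 =
      om κ (κ / x) t * (t / x) ^ 2 - 2 * (om κ (κ / x) t * (t / x)) + om κ (κ / x) t := by
    intro x; ring
  simp_rw [h]
  have i2 := om_int2 κ hκ ht
  have i1 := (om_int1 κ hκ ht).const_mul 2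
  have i0 := om_int0 κ hκ ht
  have e1 := integral_add (i2.sub i1) i0
  have e2 := integral_sub i2 i1
  simp only [Pi.sub_apply] at e1
  rw [e1, e2, integral_const_mul, om_mom0 κ hκ ht, om_mom1 κ hκ ht, om_mom2 κ hκ ht]
  ring

lemma om_nonneg' (κ : ℕ) {x t : ℝ} (hκ : 1 ≤ κ) (hx : 0 < x) (ht : 0 < t) : 0 ≤ om κ (κ / x) t :=
  om_nonneg κ (by
    have : (0:ℝ) < κ := by exact_mod_cast hκ
    positivity) ht.le

/-- Chebyshev -/
lemma cheb (κ : ℕ) (hκ : 1 ≤ κ) {t δ : ℝ} (ht : 0 < t) (hδ : 0 < δ) (S : Set ℝ)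
    (hS : MeasurableSet S) (hS0 : S ⊆ Set.Ioi 0) (hSδ : ∀ x ∈ S, δ ≤ |t / x - 1|) :
    ∫ x in S, om κ (κ / x) t ≤ 1 / (κ * δ ^ 2) := by
  have i0 := om_int0 κ hκ ht
  have iv := (om_var_int κ hκ ht).const_mul (δ ^ 2)⁻¹
  calc ∫ x in S, om κ (κ / x) t ≤ ∫ x in S, (δ ^ 2)⁻¹ * (om κ (κ / x) t * (t / x - 1) ^ 2) := by
        refine setIntegral_mono_on (i0.mono_set hS0) (IntegrableOn.mono_set iv hS0) hS fun x hx => ?_
        have h1 := om_nonneg' κ hκ (hS0 hx) ht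
        have h2 : δ ^ 2 ≤ (t / x - 1) ^ 2 := by
          rw [← sq_abs (t / x - 1)]
          exact pow_le_pow_left₀ hδ.le (hSδ x hx) 2
        have h3 : 1 ≤ (δ ^ 2)⁻¹ * (t / x - 1) ^ 2 := by
          rw [inv_mul_eq_div, one_le_div (by positivity)]
          exact h2
        calc om κ (κ / x) t = om κ (κ / x) t * 1 := (mul_one _).symm
          _ ≤ om κ (κ / x) t * ((δ ^ 2)⁻¹ * (t / x - 1) ^ 2) := mul_le_mul_of_nonneg_left h3 h1
          _ = _ := by ring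
    _ ≤ ∫ x in Set.Ioi (0:ℝ), (δ ^ 2)⁻¹ * (om κ (κ / x) t * (t / x - 1) ^ 2) := by
        refine setIntegral_mono_set iv ?_ hS0.eventuallyLE
        refine (ae_restrict_iff' measurableSet_Ioi).mpr (Eventually.of_forall fun x hx => ?_)
        have h1 := om_nonneg' κ hκ hx ht
        simp only [Pi.zero_apply]
        positivity
    _ = 1 / (κ * δ ^ 2) := by
        rw [integral_const_mul, om_var κ hκ ht]
        have hκ0 : (0:ℝ) < κ := by exact_mod_cast hκ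
        field_simp

/-- the smoothed indicator -/
def hh (κ : ℕ) (a b t : ℝ) : ℝ := ∫ x in Set.Ioc a b, om κ (κ / x) t

lemma hh_nonneg (κ : ℕ) (hκ : 1 ≤ κ) {a b t : ℝ} (ha : 0 ≤ a) (ht : 0 < t) : 0 ≤ hh κ a b t :=
  setIntegral_nonneg measurableSet_Ioc fun x hx => om_nonneg' κ hκ (lt_of_le_of_lt ha hx.1) ht

lemma hh_le_one (κ : ℕ) (hκ : 1 ≤ κ) {a b t : ℝ} (ha : 0 ≤ a) (ht : 0 < t) : hh κ a b t ≤ 1 := by
  rw [← om_mom0 κ hκ ht]
  refine setIntegral_mono_set (om_int0 κ hκ ht) ?_ ?_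
  · exact (ae_restrict_iff' measurableSet_Ioi).mpr
      (Eventually.of_forall fun x hx => om_nonneg' κ hκ hx ht)
  · exact (show Set.Ioc a b ⊆ Set.Ioi 0 from fun x hx => lt_of_le_of_lt ha hx.1).eventuallyLE

/-- the smoothed indicator is close to `1` inside -/
lemma one_sub_hh (κ : ℕ) (hκ : 1 ≤ κ) {a b t δ : ℝ} (ha : 0 ≤ a) (ht : 0 < t) (hδ : 0 < δ)
    (h1 : ∀ x, 0 < x → x ≤ a → δ ≤ |t / x - 1|) (h2 : ∀ x, 0 < x → b < x → δ ≤ |t / x - 1|) :
    1 - hh κ a b t ≤ 1 / (κ * δ ^ 2) := by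
  have hsub : Set.Ioc a b ⊆ Set.Ioi 0 := fun x hx => lt_of_le_of_lt ha hx.1
  have h3 : 1 - hh κ a b t = ∫ x in Set.Ioi 0 \ Set.Ioc a b, om κ (κ / x) t := by
    rw [setIntegral_sdiff₀ (μ := volume) measurableSet_Ioc.nullMeasurableSet (om_int0 κ hκ ht) hsub,
      om_mom0 κ hκ ht]
    rfl
  rw [h3]
  refine cheb κ hκ ht hδ _ (measurableSet_Ioi.diff measurableSet_Ioc) Set.sdiff_subset ?_
  rintro x ⟨hx0, hx⟩
  rw [Set.mem_Ioc, not_and_or] at hx
  rcases hx with hx | hx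
  · exact h1 x hx0 (not_lt.mp hx)
  · exact h2 x hx0 (not_le.mp hx)

/-- the smoothed indicator is small outside -/
lemma hh_small (κ : ℕ) (hκ : 1 ≤ κ) {a b t δ : ℝ} (ha : 0 ≤ a) (ht : 0 < t) (hδ : 0 < δ)
    (h1 : ∀ x, a < x → x ≤ b → δ ≤ |t / x - 1|) :
    hh κ a b t ≤ 1 / (κ * δ ^ 2) :=
  cheb κ hκ ht hδ _ measurableSet_Ioc (fun _ hx => lt_of_le_of_lt ha hx.1)
    fun x hx => h1 x hx.1 hx.2

/-- exponential decay -/
lemma om_tail (κ : ℕ) (hκ : 1 ≤ κ) {a b t x : ℝ} (ha : 0 < a) (hx : x ∈ Set.Ioc a b)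
    (ht : 4 * b ≤ t) : om κ (κ / x) t ≤ κ / a * Real.exp (-(κ * t / (4 * b))) := by
  have hκ0 : (0:ℝ) < κ := by exact_mod_cast hκ
  have hx0 : 0 < x := ha.trans hx.1
  have hb0 : 0 < b := hx0.trans_le hx.2
  have ht0 : 0 < t := by linarith
  set y : ℝ := κ * t / x with hy
  have hy0 : 0 < y := by positivity
  have hyκ : 4 * (κ:ℝ) ≤ y := by
    rw [hy, le_div_iff₀ hx0]
    have : 4 * x ≤ t := by linarith [hx.2]
    nlinarith
  clear_value y
  have h1 : om κ (κ / x) t = κ / x * (y ^ κ / (κ.factorial : ℝ)) * Real.exp (-y) := by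
    unfold om
    have : κ / x * t = y := by rw [hy]; ring
    rw [this]
    have h2 : (κ / x) ^ (κ + 1) * t ^ κ = κ / x * y ^ κ := by
      rw [hy, pow_succ]
      have : κ * t / x = κ / x * t := by ring
      rw [this, mul_pow]
      ring
    rw [h2]
    ring
  have h2 : y ^ κ / (κ.factorial : ℝ) ≤ Real.exp (y / 2) * Real.exp (y / 4) := by
    have h3 := Real.pow_div_factorial_le_exp (y / 4) (by positivity) κ
    have h4 : y ^ κ / (κ.factorial : ℝ) = 4 ^ κ * ((y / 4) ^ κ / (κ.factorial : ℝ)) := by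
      rw [div_pow]
      have h9 : (4:ℝ) ^ κ ≠ 0 := by positivity
      generalize (4:ℝ) ^ κ = q at h9 ⊢
      generalize y ^ κ = r
      have hf : ((κ.factorial : ℕ) : ℝ) ≠ 0 := by positivity
      field_simp
    rw [h4]
    have h5 : (4:ℝ) ^ κ ≤ Real.exp (y / 2) := by
      have h6 : (4:ℝ) ≤ Real.exp 2 := by
        have h7 : (2:ℝ) ≤ Real.exp 1 := by
          have := Real.add_one_le_exp (1:ℝ); linarith
        have h8 : Real.exp 2 = Real.exp 1 * Real.exp 1 := by rw [← Real.exp_add]; norm_num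
        rw [h8]; nlinarith
      calc (4:ℝ) ^ κ ≤ (Real.exp 2) ^ κ := pow_le_pow_left₀ (by norm_num) h6 κ
        _ = Real.exp (κ * 2) := by rw [← Real.exp_nat_mul]
        _ ≤ Real.exp (y / 2) := Real.exp_le_exp.mpr (by linarith)
    exact mul_le_mul h5 h3 (by positivity) (by positivity)
  have h3 : κ / x ≤ κ / a := div_le_div_of_nonneg_left hκ0.le ha hx.1.le
  have h4 : Real.exp (y / 2) * Real.exp (y / 4) * Real.exp (-y) = Real.exp (-(y / 4)) := by
    rw [← Real.exp_add, ← Real.exp_add]; congr 1; ring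
  have h5 : Real.exp (-(y / 4)) ≤ Real.exp (-(κ * t / (4 * b))) := by
    apply Real.exp_le_exp.mpr
    rw [neg_le_neg_iff, hy, div_div]
    apply div_le_div_of_nonneg_left (by positivity) (by positivity)
    linarith [hx.2]
  calc om κ (κ / x) t = κ / x * (y ^ κ / (κ.factorial : ℝ)) * Real.exp (-y) := h1
    _ ≤ κ / a * (Real.exp (y / 2) * Real.exp (y / 4)) * Real.exp (-y) := by gcongr
    _ = κ / a * Real.exp (-(y / 4)) := by rw [mul_assoc, h4]
    _ ≤ _ := by gcongr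

lemma hh_tail (κ : ℕ) (hκ : 1 ≤ κ) {a b t : ℝ} (ha : 0 < a) (hab : a ≤ b)
    (ht : 4 * b ≤ t) : hh κ a b t ≤ κ / a * Real.exp (-(κ * t / (4 * b))) * (b - a) := by
  have ht0 : 0 < t := by linarith
  have i0 : IntegrableOn (fun x => om κ (κ / x) t) (Set.Ioc a b) :=
    (om_int0 κ hκ ht0).mono_set fun x hx => ha.trans hx.1
  calc hh κ a b t ≤ ∫ x in Set.Ioc a b, κ / a * Real.exp (-(κ * t / (4 * b))) :=
        setIntegral_mono_on i0 (integrable_const _) measurableSet_Ioc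
          fun x hx => om_tail κ hκ ha hx ht
    _ = _ := by
        rw [setIntegral_const]
        simp only [smul_eq_mul, Measure.real, Real.volume_Ioc]
        rw [ENNReal.toReal_ofReal (by linarith)]
        ring

/-- domination of the windows -/
lemma om_dom (κ : ℕ) (hκ : 1 ≤ κ) {a b t x : ℝ} (ha : 0 < a) (hx : x ∈ Set.Ioc a b)
    (ht : 0 < t) : om κ (κ / x) t ≤ (b / a) ^ (κ + 1) * om κ (κ / b) t := by
  have hκ0 : (0:ℝ) < κ := by exact_mod_cast hκ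
  have hx0 : 0 < x := ha.trans hx.1
  have hb0 : 0 < b := hx0.trans_le hx.2
  unfold om
  have h1 : (κ / x) ^ (κ + 1) ≤ (b / a) ^ (κ + 1) * (κ / b) ^ (κ + 1) := by
    rw [← mul_pow]
    apply pow_le_pow_left₀ (by positivity)
    rw [show b / a * (κ / b) = κ / a by field_simp]
    exact div_le_div_of_nonneg_left hκ0.le ha hx.1.le
  have h2 : Real.exp (-(κ / x * t)) ≤ Real.exp (-(κ / b * t)) := by
    apply Real.exp_le_exp.mpr
    rw [neg_le_neg_iff]
    apply mul_le_mul_of_nonneg_right _ ht.le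
    exact div_le_div_of_nonneg_left hκ0.le hx0 hx.2
  calc (κ / x) ^ (κ + 1) * t ^ κ * Real.exp (-(κ / x * t)) / (κ.factorial : ℝ)
      ≤ ((b / a) ^ (κ + 1) * (κ / b) ^ (κ + 1)) * t ^ κ * Real.exp (-(κ / b * t)) /
        (κ.factorial : ℝ) := by gcongr
    _ = _ := by ring

lemma om_meas (κ : ℕ) : Measurable (fun p : ℝ × ℝ => om κ (κ / p.1) p.2) := by
  unfold om
  fun_prop

/-- joint integrability -/
lemma om_joint (κ : ℕ) (hκ : 1 ≤ κ) {a b : ℝ} (ha : 0 < a) (hb : a ≤ b) (G : ℝ → ℝ) (K : ℝ) (A : ℕ)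
    (hG : Continuous G) (hG1 : ∀ t, 0 < t → |G t| ≤ K * (1 + t) ^ A) :
    Integrable (Function.uncurry fun x t => om κ (κ / x) t * G t)
      ((volume.restrict (Set.Ioc a b)).prod (volume.restrict (Set.Ioi 0))) := by
  have hκ0 : (0:ℝ) < κ := by exact_mod_cast hκ
  have hb0 : 0 < b := ha.trans_le hb
  have hdom := ((om_poly κ A (δ := κ / b) (by positivity)).const_mul
    ((b / a) ^ (κ + 1) * K)).comp_snd (volume.restrict (Set.Ioc a b))
  refine hdom.mono' ?_ ?_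
  · exact ((om_meas κ).mul (hG.measurable.comp measurable_snd)).aestronglyMeasurable
  · have h1 : ∀ᵐ p ∂((volume.restrict (Set.Ioc a b)).prod (volume.restrict (Set.Ioi (0:ℝ)))),
        p ∈ Set.Ioc a b ×ˢ Set.Ioi (0:ℝ) := by
      rw [Measure.prod_restrict]
      exact ae_restrict_mem (measurableSet_Ioc.prod measurableSet_Ioi)
    filter_upwards [h1] with p hp
    have ht : 0 < p.2 := hp.2
    have hx0 : 0 < p.1 := ha.trans hp.1.1
    have h2 := om_dom κ hκ ha hp.1 ht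
    have h3 := om_nonneg' κ hκ hx0 ht
    have h4 := hG1 p.2 ht
    simp only [Function.uncurry, norm_mul, Real.norm_eq_abs]
    rw [abs_of_nonneg h3]
    calc om κ (κ / p.1) p.2 * |G p.2| ≤ ((b / a) ^ (κ + 1) * om κ (κ / b) p.2) * (K * (1 + p.2) ^ A) :=
          mul_le_mul h2 h4 (abs_nonneg _) (h3.trans h2)
      _ = _ := by ring

/-- the mean of the windows is the integral against the smoothed indicator -/
lemma om_swap (κ : ℕ) (hκ : 1 ≤ κ) {a b : ℝ} (ha : 0 < a) (hb : a ≤ b) (G : ℝ → ℝ) (K : ℝ) (A : ℕ)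
    (hG : Continuous G) (hG1 : ∀ t, 0 < t → |G t| ≤ K * (1 + t) ^ A) :
    ∫ x in Set.Ioc a b, (∫ t in Set.Ioi (0:ℝ), om κ (κ / x) t * G t) =
      ∫ t in Set.Ioi (0:ℝ), hh κ a b t * G t := by
  rw [integral_integral_swap (om_joint κ hκ ha hb G K A hG hG1)]
  refine integral_congr_ae (Eventually.of_forall fun t => ?_)
  simp only [hh]
  rw [integral_mul_const]

lemma hhG_int (κ : ℕ) (hκ : 1 ≤ κ) {a b : ℝ} (ha : 0 < a) (hb : a ≤ b) (G : ℝ → ℝ) (K : ℝ) (A : ℕ)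
    (hG : Continuous G) (hG1 : ∀ t, 0 < t → |G t| ≤ K * (1 + t) ^ A) :
    IntegrableOn (fun t => hh κ a b t * G t) (Set.Ioi (0:ℝ)) := by
  have h := (om_joint κ hκ ha hb G K A hG hG1).integral_prod_right
  refine h.congr (Eventually.of_forall fun t => ?_)
  simp only [hh, Function.uncurry]
  rw [integral_mul_const]

lemma hh_meas (κ : ℕ) (a b : ℝ) : Measurable (hh κ a b) := by
  have h : StronglyMeasurable (Function.uncurry fun x t => om κ (κ / x) t) :=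
    (om_meas κ).stronglyMeasurable
  exact (h.integral_prod_left (μ := volume.restrict (Set.Ioc a b))).measurable

end

end Pool.Agent.Y475.SX
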