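import Pool.Agent.Y475.SX.SHA
import Pool.Agent.Y969.SM.Stm2

set_option autoImplicit false

/-! Project SX, task SHP: fourth moments on intervals from the windows (part B). -/

namespace Pool.Agent.Y475.SX

open Finset Filter Topology MeasureTheory
open Pool.Agent.Y969.GP (ff mB)
open Pool.Agent.H306R2.SM (om cl)
open Pool.Agent.H262R4.TM (Rng)
open Pool.Agent.Y969.SM (Xz)

noncomputable section

lemma Xz_cont : Continuous Xz := zeta_cont.norm

lemma Xz_nonneg (t : ℝ) : 0 ≤ Xz t := norm_nonneg _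

lemma Xz4_bd {t : ℝ} (ht : 0 ≤ t) : Xz t ^ 4 ≤ 331776 * (1 + t) ^ 8 := by
  calc Xz t ^ 4 ≤ (24 * (1 + t) ^ 2) ^ 4 := pow_le_pow_left₀ (Xz_nonneg t) (zeta_cl_bound t ht) 4
    _ = _ := by ring

lemma Xz4_abs (t : ℝ) (ht : 0 < t) : |Xz t ^ 4| ≤ 331776 * (1 + t) ^ 8 := by
  rw [abs_of_nonneg (pow_nonneg (Xz_nonneg t) 4)]
  exact Xz4_bd ht.le

/-- from windows to intervals -/
lemma win_int (κ : ℕ) (hκ : 1 ≤ κ) {a' a b b' δ B : ℝ} (ha' : 0 < a') (hab : a < b)
    (hδ : 0 < δ) (hδκ : 2 ≤ κ * δ ^ 2) (hl : (1 + δ) * a' ≤ a) (hr : b ≤ (1 - δ) * b')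
    (hbb : b ≤ b')
    (hB : ∀ x ∈ Set.Ioc a' b', ∫ t in Set.Ioi (0:ℝ), om κ (κ / x) t * Xz t ^ 4 ≤ B) :
    ∫ t in Set.Ioc a b, Xz t ^ 4 ≤ 2 * ((b' - a') * B) := by
  have haa : a' ≤ a := le_trans (by nlinarith) hl
  have ha : 0 < a := ha'.trans_le haa
  have hb0 : 0 < b := ha.trans hab
  have hb'0 : 0 < b' := hb0.trans_le hbb
  have hδ1 : 0 ≤ 1 - δ := by
    by_contra hh
    push Not at hh
    nlinarith
  have ha'b' : a' ≤ b' := by linarith
  have hc : Continuous fun t => Xz t ^ 4 := Xz_cont.pow 4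
  have hint := hhG_int κ hκ ha' ha'b' (fun t => Xz t ^ 4) _ 8 hc Xz4_abs
  have hjoint := om_joint κ hκ ha' ha'b' (fun t => Xz t ^ 4) _ 8 hc Xz4_abs
  have key : ∀ t ∈ Set.Ioc a b, Xz t ^ 4 ≤ 2 * (hh κ a' b' t * Xz t ^ 4) := by
    intro t ht
    have ht0 : 0 < t := ha.trans ht.1
    have h1 := one_sub_hh κ hκ (a := a') (b := b') (t := t) (δ := δ) ha'.le ht0 hδ
      (by
        intro x hx0 hx
        refine le_trans ?_ (le_abs_self _)
        rw [le_sub_iff_add_le, le_div_iff₀ hx0]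
        nlinarith [ht.1])
      (by
        intro x hx0 hx
        refine le_trans ?_ (neg_le_abs _)
        have : t / x ≤ 1 - δ := by
          rw [div_le_iff₀ hx0]
          nlinarith [ht.2]
        linarith)
    have h2 : 1 / (κ * δ ^ 2) ≤ 1 / 2 := one_div_le_one_div_of_le (by norm_num) hδκ
    have h3 : 1 / 2 ≤ hh κ a' b' t := by linarith
    have h4 : 0 ≤ Xz t ^ 4 := pow_nonneg (Xz_nonneg t) 4
    nlinarith
  have hsub : Set.Ioc a b ⊆ Set.Ioi 0 := fun x hx => ha.trans hx.1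
  calc ∫ t in Set.Ioc a b, Xz t ^ 4 ≤ ∫ t in Set.Ioc a b, 2 * (hh κ a' b' t * Xz t ^ 4) :=
        setIntegral_mono_on (hc.integrableOn_Ioc) ((hint.mono_set hsub).const_mul 2)
          measurableSet_Ioc key
    _ ≤ ∫ t in Set.Ioi (0:ℝ), 2 * (hh κ a' b' t * Xz t ^ 4) := by
        refine setIntegral_mono_set (hint.const_mul 2) ?_ hsub.eventuallyLE
        refine (ae_restrict_iff' measurableSet_Ioi).mpr (Eventually.of_forall fun t ht => ?_)
        have h1 := hh_nonneg κ hκ (a := a') (b := b') ha'.le (show 0 < t from ht)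
        have h4 : 0 ≤ Xz t ^ 4 := pow_nonneg (Xz_nonneg t) 4
        simp only [Pi.zero_apply]
        positivity
    _ = 2 * ∫ x in Set.Ioc a' b', (∫ t in Set.Ioi (0:ℝ), om κ (κ / x) t * Xz t ^ 4) := by
        rw [integral_const_mul, om_swap κ hκ ha' ha'b' (fun t => Xz t ^ 4) _ 8 hc Xz4_abs]
    _ ≤ 2 * ((b' - a') * B) := by
        refine mul_le_mul_of_nonneg_left ?_ (by norm_num)
        calc ∫ x in Set.Ioc a' b', (∫ t in Set.Ioi (0:ℝ), om κ (κ / x) t * Xz t ^ 4) ≤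
            ∫ x in Set.Ioc a' b', B :=
              setIntegral_mono_on hjoint.integral_prod_left (integrable_const _)
                measurableSet_Ioc hB
          _ = (b' - a') * B := by
              rw [setIntegral_const]
              simp only [smul_eq_mul, Measure.real, Real.volume_Ioc]
              rw [ENNReal.toReal_ofReal (by linarith)]

/-- the hypothesis -/
def W4H (C : ℝ) : Prop := ∀ᶠ T : ℝ in atTop, ∀ κ : ℕ, Rng T κ →
  ∫ t in Set.Ioi (0:ℝ), om κ (κ / T) t * Xz t ^ 4 ≤ C * Real.log T ^ 4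

lemma log4_le : Real.log 4 ≤ 2 := by
  have h1 : Real.log 4 = 2 * Real.log 2 := by
    rw [show (4:ℝ) = 2 ^ 2 by norm_num, Real.log_pow]; norm_num
  have := Real.log_two_lt_d9
  rw [h1]; linarith

/-- one exponent for all windows near `y` -/
lemma win_near {C : ℝ} (hC : 0 < C) (h : W4H C) : ∃ X₀ : ℝ, Real.exp 10 ≤ X₀ ∧ ∀ y : ℝ, X₀ ≤ y →
    ∃ κ : ℕ, Real.log y ^ 2 ≤ κ ∧ ∀ x : ℝ, y / 4 ≤ x → x ≤ 2 * y →
      ∫ t in Set.Ioi (0:ℝ), om κ (κ / x) t * Xz t ^ 4 ≤ 16 * C * Real.log y ^ 4 := by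
  unfold W4H at h
  obtain ⟨T₃, hT₃⟩ := eventually_atTop.mp h
  refine ⟨max (Real.exp 10) (4 * T₃), le_max_left _ _, fun y hy => ?_⟩
  have hy1 : Real.exp 10 ≤ y := (le_max_left _ _).trans hy
  have hy2 : 4 * T₃ ≤ y := (le_max_right _ _).trans hy
  have hy0 : 0 < y := (Real.exp_pos _).trans_le hy1
  have hL : 10 ≤ Real.log y := by
    rw [Real.le_log_iff_exp_le hy0]; exact hy1
  set L := Real.log y with hLdef
  refine ⟨⌈2 * L ^ 2⌉₊, ?_, ?_⟩
  · have := Nat.le_ceil (2 * L ^ 2)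
    nlinarith
  · intro x hx1 hx2
    have hx0 : 0 < x := lt_of_lt_of_le (by linarith) hx1
    have hk1 := Nat.le_ceil (2 * L ^ 2)
    have hk2 := Nat.ceil_lt_add_one (show 0 ≤ 2 * L ^ 2 by positivity)
    have hl1 : Real.log x ≤ L + 1 := by
      calc Real.log x ≤ Real.log (2 * y) := Real.log_le_log hx0 hx2
        _ = Real.log 2 + L := Real.log_mul (by norm_num) hy0.ne'
        _ ≤ L + 1 := by have := Real.log_two_lt_d9; linarith
    have hl2 : L - 2 ≤ Real.log x := by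
      calc L - 2 ≤ L - Real.log 4 := by have := log4_le; linarith
        _ = Real.log (y / 4) := (Real.log_div hy0.ne' (by norm_num)).symm
        _ ≤ Real.log x := Real.log_le_log (by linarith) hx1
    have hR : Rng x ⌈2 * L ^ 2⌉₊ := by
      constructor
      · nlinarith
      · nlinarith
    refine (hT₃ x (by linarith) _ hR).trans ?_
    have h1 : Real.log x ^ 4 ≤ (2 * L) ^ 4 := pow_le_pow_left₀ (by linarith) (by linarith) 4
    calc C * Real.log x ^ 4 ≤ C * (2 * L) ^ 4 := mul_le_mul_of_nonneg_left h1 hC.le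
      _ = _ := by ring

/-- short intervals around `T` -/
lemma near_T {C : ℝ} (hC : 0 < C) (h : W4H C) {ε : ℝ} (hε : 0 < ε) (hε1 : ε ≤ 1 / 4) :
    ∀ᶠ T : ℝ in atTop, ∫ t in Set.Ioc ((1 - ε) * T) ((1 + ε) * T), Xz t ^ 4 ≤
      128 * C * ε * (T * Real.log T ^ 4) := by
  obtain ⟨X₀, hX₀, hX⟩ := win_near hC h
  have h1 : ∀ᶠ T : ℝ in atTop, 8 / ε ^ 2 + 1 ≤ Real.log T :=
    Real.tendsto_log_atTop.eventually_ge_atTop _
  filter_upwards [h1, eventually_ge_atTop X₀] with T hT1 hT2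
  have hT0 : 0 < T := (Real.exp_pos _).trans_le (hX₀.trans hT2)
  obtain ⟨κ, hκ, hκB⟩ := hX T hT2
  have h8 : 0 < 8 / ε ^ 2 := by positivity
  have hκ2 : 8 / ε ^ 2 ≤ κ := by nlinarith
  have hκ1 : (1:ℝ) ≤ κ := by nlinarith
  have hκ1' : 1 ≤ κ := by exact_mod_cast hκ1
  have hcond : 2 ≤ (κ:ℝ) * (ε / 2) ^ 2 := by
    rw [div_le_iff₀ (by positivity)] at hκ2
    nlinarith
  have h2 := win_int κ hκ1' (a' := (1 - 2 * ε) * T) (a := (1 - ε) * T) (b := (1 + ε) * T)
    (b' := (1 + 2 * ε) * T) (δ := ε / 2) (B := 16 * C * Real.log T ^ 4)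
    (by nlinarith) (by nlinarith) (by positivity) hcond
    (by
      rw [← mul_assoc]
      refine mul_le_mul_of_nonneg_right ?_ hT0.le
      nlinarith)
    (by
      rw [← mul_assoc]
      refine mul_le_mul_of_nonneg_right ?_ hT0.le
      nlinarith)
    (by nlinarith)
    (by
      intro x hx
      refine hκB x ?_ ?_
      · have := hx.1; nlinarith
      · have := hx.2; nlinarith)
  refine h2.trans (le_of_eq ?_)
  ring

/-- the fourth moment -/
def M4 (x : ℝ) : ℝ := ∫ t in Set.Ioc (0:ℝ) x, Xz t ^ 4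

lemma M4_nonneg (x : ℝ) : 0 ≤ M4 x :=
  setIntegral_nonneg measurableSet_Ioc fun t _ => pow_nonneg (Xz_nonneg t) 4

lemma M4_mono {x y : ℝ} (h : x ≤ y) : M4 x ≤ M4 y := by
  have hc : Continuous fun t => Xz t ^ 4 := Xz_cont.pow 4
  refine setIntegral_mono_set hc.integrableOn_Ioc ?_ (Set.Ioc_subset_Ioc_right h).eventuallyLE
  exact Eventually.of_forall fun t => pow_nonneg (Xz_nonneg t) 4

lemma M4_split {x y : ℝ} (hx : 0 ≤ x) (h : x ≤ y) : M4 y = M4 x + ∫ t in Set.Ioc x y, Xz t ^ 4 := by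
  have hc : Continuous fun t => Xz t ^ 4 := Xz_cont.pow 4
  unfold M4
  rw [← Set.Ioc_union_Ioc_eq_Ioc hx h, setIntegral_union (Set.Ioc_disjoint_Ioc_of_le le_rfl)
    measurableSet_Ioc hc.integrableOn_Ioc hc.integrableOn_Ioc]

/-- the bound of the fourth moment -/
lemma M4_bd {C : ℝ} (hC : 0 < C) (h : W4H C) : ∃ C₄ : ℝ, 0 < C₄ ∧ ∀ Y x : ℝ, 0 < x → x ≤ Y →
    M4 x ≤ C₄ * (x * Real.log Y ^ 4 + 1) := by
  obtain ⟨X₀, hX₀, hX⟩ := win_near hC h
  have hX0 : 0 < X₀ := (Real.exp_pos _).trans_le hX₀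
  have hdy : ∀ y : ℝ, X₀ ≤ y → ∫ t in Set.Ioc (y / 2) y, Xz t ^ 4 ≤ 56 * C * (y * Real.log y ^ 4) := by
    intro y hy
    obtain ⟨κ, hκ, hκB⟩ := hX y hy
    have hy0 : 0 < y := hX0.trans_le hy
    have hL : 10 ≤ Real.log y := by
      rw [Real.le_log_iff_exp_le hy0]; exact hX₀.trans hy
    have hκ1 : (8:ℝ) ≤ κ := by nlinarith
    have hκ1' : 1 ≤ κ := by
      have : (1:ℝ) ≤ κ := by linarith
      exact_mod_cast this
    have h2 := win_int κ hκ1' (a' := y / 4) (a := y / 2) (b := y)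
      (b' := 2 * y) (δ := 1 / 2) (B := 16 * C * Real.log y ^ 4)
      (by linarith) (by linarith) (by norm_num) (by linarith) (by linarith) (by linarith)
      (by linarith) (fun x hx => hκB x hx.1.le hx.2)
    refine h2.trans (le_of_eq ?_)
    ring
  have hind : ∀ (Y : ℝ) (m : ℕ) (x : ℝ), 0 < x → x ≤ Y → x ≤ 2 ^ m * X₀ →
      M4 x ≤ 112 * C * (x * Real.log Y ^ 4) + M4 X₀ := by
    intro Y m
    induction m with
    | zero =>
      intro x hx0 hxY hx
      have h1 : M4 x ≤ M4 X₀ := M4_mono (by simpa using hx)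
      have h2 : 0 ≤ 112 * C * (x * Real.log Y ^ 4) := by positivity
      linarith
    | succ m ih =>
      intro x hx0 hxY hx
      rcases le_or_gt x X₀ with hxX | hxX
      · have h1 : M4 x ≤ M4 X₀ := M4_mono hxX
        have h2 : 0 ≤ 112 * C * (x * Real.log Y ^ 4) := by positivity
        linarith
      · have h1 := ih (x / 2) (by linarith) (by linarith) (by
          rw [pow_succ] at hx
          linarith)
        have h2 := hdy x hxX.le
        have h3 := M4_split (x := x / 2) (y := x) (by linarith) (by linarith)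
        have hL : 10 ≤ Real.log x := by
          rw [Real.le_log_iff_exp_le hx0]; exact hX₀.trans hxX.le
        have h4 : Real.log x ^ 4 ≤ Real.log Y ^ 4 :=
          pow_le_pow_left₀ (by linarith) (Real.log_le_log hx0 hxY) 4
        have h5 : 56 * C * (x * Real.log x ^ 4) ≤ 56 * C * (x * Real.log Y ^ 4) := by gcongr
        rw [h3]
        nlinarith
  refine ⟨112 * C + M4 X₀ + 1, by have := M4_nonneg X₀; positivity, fun Y x hx0 hxY => ?_⟩
  obtain ⟨m, hm⟩ := pow_unbounded_of_one_lt (x / X₀) (by norm_num : (1:ℝ) < 2)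
  have h1 := hind Y m x hx0 hxY (by
    rw [div_lt_iff₀ hX0] at hm
    exact hm.le)
  have h2 := M4_nonneg X₀
  have h3 : 0 ≤ x * Real.log Y ^ 4 := by positivity
  nlinarith [mul_nonneg h2 h3]

end

end Pool.Agent.Y475.SX
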