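import Pool.Agent.Y475.SX.SHB

set_option autoImplicit false

/-! Project SX, task SHP: the tail and the pointwise bounds (part C). -/

namespace Pool.Agent.Y475.SX

open Finset Filter Topology MeasureTheory
open Pool.Agent.Y969.GP (ff mB)
open Pool.Agent.H306R2.SM (om cl)
open Pool.Agent.H262R4.TM (Rng)
open Pool.Agent.Y969.SM (Xz)

noncomputable section

lemma ff_eq (u : ℝ) : ff u = Xz u ^ 2 := by
  unfold ff Xz cl
  rw [mul_comm Complex.I]

lemma ff_cont : Continuous ff := by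
  have h : ff = fun u => Xz u ^ 2 := funext ff_eq
  rw [h]
  exact Xz_cont.pow 2

lemma ff_nonneg (u : ℝ) : 0 ≤ ff u := by rw [ff_eq]; positivity

lemma ff_bd {u : ℝ} (hu : 0 ≤ u) : ff u ≤ 576 * (1 + u) ^ 4 := by
  rw [ff_eq]
  calc Xz u ^ 2 ≤ (24 * (1 + u) ^ 2) ^ 2 := pow_le_pow_left₀ (Xz_nonneg u) (zeta_cl_bound u hu) 2
    _ = _ := by ring

/-- the integrand -/
def Gc {n : ℕ} (c : Fin n → ℝ) (t : ℝ) : ℝ := Xz t ^ 4 * ∏ j, ff (t + c j)

lemma Gc_cont {n : ℕ} (c : Fin n → ℝ) : Continuous (Gc c) := by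
  unfold Gc
  refine (Xz_cont.pow 4).mul (continuous_finsetProd _ fun j _ => ?_)
  exact ff_cont.comp (by fun_prop)

lemma Gc_cont2 (n : ℕ) : Continuous (fun p : (Fin n → ℝ) × ℝ => Gc p.1 p.2) := by
  unfold Gc
  refine ((Xz_cont.comp continuous_snd).pow 4).mul (continuous_finsetProd _ fun j _ => ?_)
  exact ff_cont.comp (by fun_prop)

lemma Gc_nonneg {n : ℕ} (c : Fin n → ℝ) (t : ℝ) : 0 ≤ Gc c t :=
  mul_nonneg (pow_nonneg (Xz_nonneg t) 4) (prod_nonneg fun j _ => ff_nonneg _)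

/-- the constant of the polynomial bound -/
def KG (n : ℕ) (T : ℝ) : ℝ := 331776 * (576 * (1 + T) ^ 4) ^ n

lemma Gc_bd {n : ℕ} {T : ℝ} (hT : 0 ≤ T) (c : Fin n → ℝ) (hc : ∀ j, c j ∈ Set.Icc 0 T) (t : ℝ)
    (ht : 0 < t) : |Gc c t| ≤ KG n T * (1 + t) ^ (8 + 4 * n) := by
  rw [abs_of_nonneg (Gc_nonneg c t)]
  unfold Gc KG
  have h1 := Xz4_bd ht.le
  have h2 : ∏ j, ff (t + c j) ≤ ∏ _j : Fin n, (576 * (1 + T) ^ 4 * (1 + t) ^ 4) := by
    refine prod_le_prod (fun j _ => ff_nonneg _) fun j _ => ?_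
    have h3 := (hc j).1
    have h4 := (hc j).2
    refine (ff_bd (by linarith)).trans ?_
    have h5 : (1 + (t + c j)) ^ 4 ≤ ((1 + T) * (1 + t)) ^ 4 := by
      apply pow_le_pow_left₀ (by linarith)
      nlinarith
    rw [mul_pow] at h5
    linarith
  rw [prod_const, card_univ, Fintype.card_fin, mul_pow] at h2
  calc Xz t ^ 4 * ∏ j, ff (t + c j) ≤ (331776 * (1 + t) ^ 8) *
      ((576 * (1 + T) ^ 4) ^ n * ((1 + t) ^ 4) ^ n) :=
        mul_le_mul h1 h2 (prod_nonneg fun j _ => ff_nonneg _) (by positivity)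
    _ = _ := by rw [pow_add, pow_mul]; ring

/-- the difference of the sharp and the smooth cut-off -/
def Dd (κ : ℕ) (ε T t : ℝ) : ℝ := |(Set.Ioc 0 T).indicator (fun _ => (1:ℝ)) t - hh κ (ε * T) T t|

lemma Dd_meas (κ : ℕ) (ε T : ℝ) : Measurable (Dd κ ε T) := by
  unfold Dd
  exact ((measurable_const.indicator measurableSet_Ioc).sub (hh_meas κ _ _)).abs

lemma Dd_nonneg (κ : ℕ) (ε T t : ℝ) : 0 ≤ Dd κ ε T t := abs_nonneg _

lemma Dd_le (κ : ℕ) (hκ : 1 ≤ κ) {ε T t : ℝ} (hε : 0 < ε) (hT : 0 < T) (ht : 0 < t) :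
    Dd κ ε T t ≤ (Set.Ioc 0 T).indicator (fun _ => (1:ℝ)) t + hh κ (ε * T) T t := by
  unfold Dd
  have h1 := hh_nonneg κ hκ (a := ε * T) (b := T) (by positivity) ht
  have h2 : 0 ≤ (Set.Ioc 0 T).indicator (fun _ => (1:ℝ)) t :=
    Set.indicator_nonneg (fun _ _ => zero_le_one) t
  rw [abs_le]
  constructor <;> linarith

lemma Dd_one (κ : ℕ) (hκ : 1 ≤ κ) {ε T t : ℝ} (hε : 0 < ε) (hT : 0 < T) (ht : 0 < t) :
    Dd κ ε T t ≤ 1 := by
  unfold Dd
  have h1 := hh_nonneg κ hκ (a := ε * T) (b := T) (by positivity) ht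
  have h3 := hh_le_one κ hκ (a := ε * T) (b := T) (by positivity) ht
  have h2 : 0 ≤ (Set.Ioc 0 T).indicator (fun _ => (1:ℝ)) t :=
    Set.indicator_nonneg (fun _ _ => zero_le_one) t
  have h4 : (Set.Ioc 0 T).indicator (fun _ => (1:ℝ)) t ≤ 1 :=
    Set.indicator_le_self' (fun _ _ => zero_le_one) t
  rw [abs_le]
  constructor <;> linarith

/-- the pointwise bound -/
lemma Dd_small (κ : ℕ) (hκ : 1 ≤ κ) {ε T t : ℝ} (hε : 0 < ε) (hε1 : ε ≤ 1 / 4) (hT : 0 < T) (ht : 0 < t) :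
    Dd κ ε T t ≤ (Set.Ioc 0 (2 * ε * T)).indicator (fun _ => (1:ℝ)) t +
      (Set.Ioc ((1 - ε) * T) ((1 + ε) * T)).indicator (fun _ => (1:ℝ)) t + 1 / (κ * ε ^ 2) := by
  have hκ0 : (0:ℝ) < κ := by exact_mod_cast hκ
  have i1 : 0 ≤ (Set.Ioc 0 (2 * ε * T)).indicator (fun _ => (1:ℝ)) t :=
    Set.indicator_nonneg (fun _ _ => zero_le_one) t
  have i2 : 0 ≤ (Set.Ioc ((1 - ε) * T) ((1 + ε) * T)).indicator (fun _ => (1:ℝ)) t :=
    Set.indicator_nonneg (fun _ _ => zero_le_one) t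
  have i3 : 0 ≤ 1 / ((κ:ℝ) * ε ^ 2) := by positivity
  have h1 := Dd_one κ hκ hε hT ht
  have hn := hh_nonneg κ hκ (a := ε * T) (b := T) (by positivity) ht
  have hl := hh_le_one κ hκ (a := ε * T) (b := T) (by positivity) ht
  by_cases c1 : t ≤ 2 * ε * T
  · rw [Set.indicator_of_mem (show t ∈ Set.Ioc 0 (2 * ε * T) from ⟨ht, c1⟩)]
    linarith
  push Not at c1
  by_cases c2 : t ≤ (1 - ε) * T
  · -- inside
    have h2 := one_sub_hh κ hκ (a := ε * T) (b := T) (t := t) (δ := ε) (by positivity) ht hε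
      (by
        intro x hx0 hx
        refine le_trans ?_ (le_abs_self _)
        rw [le_sub_iff_add_le, le_div_iff₀ hx0]
        nlinarith)
      (by
        intro x hx0 hx
        refine le_trans ?_ (neg_le_abs _)
        have : t / x ≤ 1 - ε := by
          rw [div_le_iff₀ hx0]
          nlinarith
        linarith)
    have htT : t ≤ T := by nlinarith
    have h3 : Dd κ ε T t = 1 - hh κ (ε * T) T t := by
      unfold Dd
      rw [Set.indicator_of_mem (show t ∈ Set.Ioc 0 T from ⟨ht, htT⟩), abs_of_nonneg (by linarith)]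
    rw [h3]
    linarith
  push Not at c2
  by_cases c3 : t ≤ (1 + ε) * T
  · rw [Set.indicator_of_mem (show t ∈ Set.Ioc ((1 - ε) * T) ((1 + ε) * T) from ⟨c2, c3⟩)]
    linarith
  push Not at c3
  · have h2 := hh_small κ hκ (a := ε * T) (b := T) (t := t) (δ := ε) (by positivity) ht hε
      (by
        intro x hx0 hx
        have hx00 : 0 < x := lt_trans (by positivity) hx0
        refine le_trans ?_ (le_abs_self _)
        rw [le_sub_iff_add_le, le_div_iff₀ hx00]
        nlinarith)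
    have htT : T < t := by nlinarith
    have h3 : Dd κ ε T t = hh κ (ε * T) T t := by
      unfold Dd
      rw [Set.indicator_of_notMem (fun h => absurd h.2 (not_le.mpr htT)), zero_sub, abs_neg,
        abs_of_nonneg hn]
    rw [h3]
    linarith

lemma Dd_tail (κ : ℕ) (hκ : 1 ≤ κ) {ε T t : ℝ} (hε : 0 < ε) (hε1 : ε ≤ 1 / 4) (hT : 0 < T)
    (ht : 4 * T < t) :
    Dd κ ε T t ≤ κ / ε * Real.exp (-(κ * t / (4 * T))) := by
  have hκ0 : (0:ℝ) < κ := by exact_mod_cast hκ
  have ht0 : 0 < t := by linarith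
  have hn := hh_nonneg κ hκ (a := ε * T) (b := T) (by positivity) ht0
  have h3 : Dd κ ε T t = hh κ (ε * T) T t := by
    unfold Dd
    rw [Set.indicator_of_notMem (fun h => absurd h.2 (not_le.mpr (by linarith))), zero_sub, abs_neg,
      abs_of_nonneg hn]
  rw [h3]
  refine (hh_tail κ hκ (a := ε * T) (b := T) (by positivity) (by nlinarith) ht.le).trans ?_
  calc κ / (ε * T) * Real.exp (-(κ * t / (4 * T))) * (T - ε * T)
      ≤ κ / (ε * T) * Real.exp (-(κ * t / (4 * T))) * T := by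
        apply mul_le_mul_of_nonneg_left _ (by positivity)
        nlinarith
    _ = _ := by field_simp

/-- the mean of the shifted second moment -/
def Jf (T t : ℝ) : ℝ := ∫ u in Set.Icc 0 T, ff (t + u)

lemma Jf_nonneg (T t : ℝ) : 0 ≤ Jf T t :=
  setIntegral_nonneg measurableSet_Icc fun u _ => ff_nonneg _

lemma Jf_big {T t : ℝ} (hT : 1 ≤ T) (ht : 4 * T < t) : Jf T t ≤ 9216 * (1 + t) ^ 5 := by
  have hc : Continuous fun u => ff (t + u) := ff_cont.comp (by fun_prop)
  calc Jf T t ≤ ∫ u in Set.Icc 0 T, 576 * (2 * (1 + t)) ^ 4 := by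
        refine setIntegral_mono_on (hc.integrableOn_Icc) (integrable_const _) measurableSet_Icc ?_
        intro u hu
        have h1 := hu.1
        have h2 := hu.2
        refine (ff_bd (by linarith)).trans ?_
        have h5 : (1 + (t + u)) ^ 4 ≤ (2 * (1 + t)) ^ 4 := by
          apply pow_le_pow_left₀ (by linarith)
          linarith
        linarith
    _ = T * (576 * (2 * (1 + t)) ^ 4) := by
        rw [setIntegral_const]
        simp only [smul_eq_mul, Measure.real, Real.volume_Icc]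
        rw [ENNReal.toReal_ofReal (by linarith)]
        ring
    _ ≤ (1 + t) * (576 * (2 * (1 + t)) ^ 4) := by
        apply mul_le_mul_of_nonneg_right (by linarith) (by positivity)
    _ = _ := by ring

lemma Jf_small {C : ℝ} (h : ∀ T : ℝ, 2 ≤ T → ∫ u in (0:ℝ)..(2 * T), ff u ≤ C * T * Real.log T)
    (hC : 0 < C) {T t : ℝ} (hT : 3 ≤ T) (ht0 : 0 < t) (ht : t ≤ 4 * T) :
    Jf T t ≤ 5 * C * (T * Real.log T) := by
  have hi : ∀ a b, IntervalIntegrable ff volume a b := fun a b => ff_cont.intervalIntegrable a b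
  have h1 : Jf T t = ∫ u in t..(T + t), ff u := by
    unfold Jf
    rw [integral_Icc_eq_integral_Ioc, ← intervalIntegral.integral_of_le (by linarith)]
    have := intervalIntegral.integral_comp_add_left (a := 0) (b := T) (f := ff) t
    rw [this, add_zero, add_comm t T]
  have h2 : ∫ u in t..(T + t), ff u ≤ ∫ u in (0:ℝ)..(2 * (5 / 2 * T)), ff u := by
    rw [intervalIntegral.integral_of_le (by linarith), intervalIntegral.integral_of_le (by linarith)]
    refine setIntegral_mono_set (ff_cont.integrableOn_Ioc) ?_ ?_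
    · exact Eventually.of_forall fun u => ff_nonneg u
    · exact (Set.Ioc_subset_Ioc (by linarith) (by linarith)).eventuallyLE
  have h3 := h (5 / 2 * T) (by linarith)
  have h4 : Real.log (5 / 2 * T) ≤ 2 * Real.log T := by
    calc Real.log (5 / 2 * T) ≤ Real.log (T ^ 2) :=
          Real.log_le_log (by linarith) (by nlinarith)
      _ = 2 * Real.log T := by rw [Real.log_pow]; norm_num
  rw [h1]
  refine h2.trans (h3.trans ?_)
  calc C * (5 / 2 * T) * Real.log (5 / 2 * T) ≤ C * (5 / 2 * T) * (2 * Real.log T) :=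
        mul_le_mul_of_nonneg_left h4 (by positivity)
    _ = _ := by ring

/-- exponential against polynomial -/
lemma exp_poly (κ A : ℕ) (hκ : 1 ≤ κ) {T t : ℝ} (hT : 1 ≤ T) (ht : 4 * T < t) :
    Real.exp (-(κ * t / (4 * T))) * (1 + t) ^ A ≤
      Real.exp (-(κ / 2)) * ((A.factorial : ℝ) * (16 * T) ^ A * Real.exp 1) *
        Real.exp (-(1 / (16 * T)) * t) := by
  have hκ0 : (1:ℝ) ≤ κ := by exact_mod_cast hκ
  have hT0 : 0 < T := by linarith
  have ht0 : 0 < t := by linarith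
  have hA : (0:ℝ) < (A.factorial : ℝ) := by positivity
  have h1 : (1 + t) ^ A ≤ (A.factorial : ℝ) * (16 * T) ^ A * Real.exp ((1 + t) / (16 * T)) := by
    have h2 := Real.pow_div_factorial_le_exp ((1 + t) / (16 * T)) (by positivity) A
    rw [div_pow, div_div, div_le_iff₀ (by positivity)] at h2
    calc (1 + t) ^ A ≤ Real.exp ((1 + t) / (16 * T)) * ((16 * T) ^ A * (A.factorial : ℝ)) := h2
      _ = _ := by ring
  have h3 : Real.exp (-(κ * t / (4 * T))) * Real.exp ((1 + t) / (16 * T)) ≤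
      Real.exp (-(κ / 2)) * Real.exp 1 * Real.exp (-(1 / (16 * T)) * t) := by
    rw [← Real.exp_add, ← Real.exp_add, ← Real.exp_add]
    apply Real.exp_le_exp.mpr
    have e1 : (κ:ℝ) * t / (4 * T) = κ * (t / (8 * T)) + κ * (t / (8 * T)) := by field_simp; ring
    have e2 : (1 + t) / (16 * T) = 1 / (16 * T) + 1 / (16 * T) * t := by ring
    have e3 : t / (8 * T) = 2 * (1 / (16 * T) * t) := by field_simp; norm_num
    have e4 : 1 / 2 ≤ t / (8 * T) := by
      rw [le_div_iff₀ (by positivity)]; linarith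
    have e5 : 1 / (16 * T) ≤ 1 := by
      rw [div_le_one (by positivity)]; linarith
    have e6 : (κ:ℝ) / 2 ≤ κ * (t / (8 * T)) := by nlinarith
    have e7 : t / (8 * T) ≤ κ * (t / (8 * T)) := by
      have : 0 ≤ t / (8 * T) := by positivity
      nlinarith
    rw [e1, e2]
    linarith
  calc Real.exp (-(κ * t / (4 * T))) * (1 + t) ^ A ≤ Real.exp (-(κ * t / (4 * T))) *
      ((A.factorial : ℝ) * (16 * T) ^ A * Real.exp ((1 + t) / (16 * T))) :=
        mul_le_mul_of_nonneg_left h1 (Real.exp_pos _).le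
    _ = ((A.factorial : ℝ) * (16 * T) ^ A) *
      (Real.exp (-(κ * t / (4 * T))) * Real.exp ((1 + t) / (16 * T))) := by ring
    _ ≤ ((A.factorial : ℝ) * (16 * T) ^ A) *
      (Real.exp (-(κ / 2)) * Real.exp 1 * Real.exp (-(1 / (16 * T)) * t)) :=
        mul_le_mul_of_nonneg_left h3 (by positivity)
    _ = _ := by ring

lemma int_exp {T : ℝ} (hT : 1 ≤ T) : IntegrableOn (fun t : ℝ => Real.exp (-(1 / (16 * T)) * t)) (Set.Ioi (4 * T)) ∧
    ∫ t in Set.Ioi (4 * T), Real.exp (-(1 / (16 * T)) * t) ≤ 16 * T := by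
  have hT0 : 0 < T := by linarith
  have h1 : -(1 / (16 * T)) < 0 := by
    rw [neg_lt_zero]; positivity
  refine ⟨integrableOn_exp_mul_Ioi h1 _, ?_⟩
  rw [integral_exp_mul_Ioi h1]
  have h2 : Real.exp (-(1 / (16 * T)) * (4 * T)) ≤ 1 := by
    rw [Real.exp_le_one_iff]
    have : 0 < 1 / (16 * T) * (4 * T) := by positivity
    linarith
  rw [div_neg, neg_div, neg_neg, div_div_eq_mul_div, div_one]
  nlinarith [Real.exp_pos (-(1 / (16 * T)) * (4 * T))]

end

end Pool.Agent.Y475.SX
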