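import Pool.Agent.Y475.SX.SHC

set_option autoImplicit false

/-! Project SX, task SHP: the sharp cut-off against the windows. -/

namespace Pool.Agent.Y475.SX

open Finset Filter Topology MeasureTheory
open Pool.Agent.Y969.GP (ff mB)
open Pool.Agent.H306R2.SM (om cl)
open Pool.Agent.H262R4.TM (Rng)
open Pool.Agent.Y969.SM (Xz WW S_SHP S_CTW)

noncomputable section

lemma mB_eq (n : ℕ) (T : ℝ) : mB n 0 T =
    volume.restrict (Set.pi Set.univ fun _ : Fin n => Set.Icc (0:ℝ) T) := by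
  unfold mB
  rw [← Measure.restrict_pi_pi, volume_pi]

lemma mB_ae (n : ℕ) (T : ℝ) : ∀ᵐ c ∂(mB n 0 T), ∀ j, c j ∈ Set.Icc (0:ℝ) T := by
  rw [mB_eq]
  filter_upwards [ae_restrict_mem (MeasurableSet.univ_pi fun _ => measurableSet_Icc)] with c hc j
  exact hc j (Set.mem_univ j)

lemma ind_int (T : ℝ) (G : ℝ → ℝ) (hG : Continuous G) :
    IntegrableOn (fun t => (Set.Ioc 0 T).indicator (fun _ => (1:ℝ)) t * G t) (Set.Ioi (0:ℝ)) := by
  have h : (fun t => (Set.Ioc 0 T).indicator (fun _ => (1:ℝ)) t * G t) = (Set.Ioc 0 T).indicator G := by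
    funext t
    by_cases ht : t ∈ Set.Ioc 0 T
    · rw [Set.indicator_of_mem ht, Set.indicator_of_mem ht, one_mul]
    · rw [Set.indicator_of_notMem ht, Set.indicator_of_notMem ht, zero_mul]
  rw [h]
  exact ((integrable_indicator_iff measurableSet_Ioc).mpr hG.integrableOn_Ioc).integrableOn

lemma ind_eq {S : Set ℝ} (hS : MeasurableSet S) (hS0 : S ⊆ Set.Ioi 0) (G : ℝ → ℝ) :
    ∫ t in Set.Ioi (0:ℝ), S.indicator (fun _ => (1:ℝ)) t * G t = ∫ t in S, G t := by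
  have h : (fun t => S.indicator (fun _ => (1:ℝ)) t * G t) = S.indicator G := by
    funext t
    by_cases ht : t ∈ S
    · rw [Set.indicator_of_mem ht, Set.indicator_of_mem ht, one_mul]
    · rw [Set.indicator_of_notMem ht, Set.indicator_of_notMem ht, zero_mul]
  rw [h, setIntegral_indicator hS, Set.inter_eq_right.mpr hS0]

/-- for one `c` -/
lemma pt {n : ℕ} (κ : ℕ) (hκ : 1 ≤ κ) {ε T : ℝ} (hε : 0 < ε) (hε1 : ε ≤ 1 / 4) (hT : 0 < T)
    (c : Fin n → ℝ) (hc : ∀ j, c j ∈ Set.Icc (0:ℝ) T) :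
    |(∫ t in (0:ℝ)..T, Xz t ^ 4 * ∏ j, ff (t + c j)) - ∫ T' in (ε * T)..T, WW κ T' c| ≤
      ∫ t in Set.Ioi (0:ℝ), Dd κ ε T t * Gc c t := by
  have hεT : ε * T ≤ T := by nlinarith
  have hεT0 : 0 < ε * T := by positivity
  have hcont := Gc_cont c
  have hbd := Gc_bd hT.le c hc
  have i1 := ind_int T (Gc c) hcont
  have i2 := hhG_int κ hκ hεT0 hεT (Gc c) _ _ hcont hbd
  have hA : ∫ t in (0:ℝ)..T, Xz t ^ 4 * ∏ j, ff (t + c j) =
      ∫ t in Set.Ioi (0:ℝ), (Set.Ioc 0 T).indicator (fun _ => (1:ℝ)) t * Gc c t := by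
    rw [intervalIntegral.integral_of_le hT.le,
      ind_eq measurableSet_Ioc (fun x hx => hx.1)]
    rfl
  have hB : ∫ T' in (ε * T)..T, WW κ T' c =
      ∫ t in Set.Ioi (0:ℝ), hh κ (ε * T) T t * Gc c t := by
    rw [intervalIntegral.integral_of_le hεT, ← om_swap κ hκ hεT0 hεT (Gc c) _ _ hcont hbd]
    rfl
  rw [hA, hB, ← integral_sub i1 i2]
  refine (abs_integral_le_integral_abs).trans (le_of_eq ?_)
  refine integral_congr_ae (Eventually.of_forall fun t => ?_)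
  simp only [Dd]
  rw [← sub_mul, abs_mul, abs_of_nonneg (Gc_nonneg c t)]

/-- joint integrability -/
lemma joint {n : ℕ} (κ : ℕ) (hκ : 1 ≤ κ) {ε T : ℝ} (hε : 0 < ε) (hε1 : ε ≤ 1 / 4) (hT : 0 < T) :
    Integrable (Function.uncurry fun (c : Fin n → ℝ) (t : ℝ) => Dd κ ε T t * Gc c t)
      ((mB n 0 T).prod (volume.restrict (Set.Ioi 0))) := by
  have : IsFiniteMeasure (mB n 0 T) := by unfold mB; infer_instance
  have hεT : ε * T ≤ T := by nlinarith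
  have hεT0 : 0 < ε * T := by positivity
  set Q : ℝ → ℝ := fun t => KG n T * (1 + t) ^ (8 + 4 * n) with hQ
  have hQc : Continuous Q := by rw [hQ]; fun_prop
  have hKG : 0 ≤ KG n T := by unfold KG; positivity
  have i1 := ind_int T Q hQc
  have i2 := hhG_int κ hκ hεT0 hεT Q (KG n T) (8 + 4 * n) hQc (by
    intro t ht
    rw [hQ, abs_of_nonneg (by positivity)])
  have hdom := (i1.add i2).comp_snd (mB n 0 T)
  refine hdom.mono' ?_ ?_
  · refine Measurable.aestronglyMeasurable ?_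
    exact ((Dd_meas κ ε T).comp measurable_snd).mul (Gc_cont2 n).measurable
  · have h1 : ∀ᵐ p ∂((mB n 0 T).prod (volume.restrict (Set.Ioi (0:ℝ)))),
        p ∈ (Set.pi Set.univ fun _ : Fin n => Set.Icc (0:ℝ) T) ×ˢ Set.Ioi (0:ℝ) := by
      rw [mB_eq, Measure.prod_restrict]
      exact ae_restrict_mem ((MeasurableSet.univ_pi fun _ => measurableSet_Icc).prod measurableSet_Ioi)
    filter_upwards [h1] with p hp
    have ht : 0 < p.2 := hp.2
    have hc : ∀ j, p.1 j ∈ Set.Icc (0:ℝ) T := fun j => hp.1 j (Set.mem_univ j)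
    have h2 := Gc_bd hT.le p.1 hc p.2 ht
    have h3 := Dd_le κ hκ hε hT ht
    simp only [Function.uncurry, norm_mul, Real.norm_eq_abs, Pi.add_apply]
    rw [abs_of_nonneg (Dd_nonneg κ ε T p.2)]
    calc Dd κ ε T p.2 * |Gc p.1 p.2| ≤
        ((Set.Ioc 0 T).indicator (fun _ => (1:ℝ)) p.2 + hh κ (ε * T) T p.2) * Q p.2 :=
          mul_le_mul h3 h2 (abs_nonneg _) ((Dd_nonneg κ ε T p.2).trans h3)
      _ = _ := by ring

lemma inner (n : ℕ) (T t : ℝ) : ∫ c, Gc c t ∂(mB n 0 T) = Xz t ^ 4 * Jf T t ^ n := by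
  unfold Gc mB Jf
  rw [integral_const_mul, integral_fintype_prod_eq_prod (fun _ : Fin n => fun u : ℝ => ff (t + u))]
  simp

/-- the mean over `c` -/
lemma mean_le {n : ℕ} (κ : ℕ) (hκ : 1 ≤ κ) {ε T : ℝ} (hε : 0 < ε) (hε1 : ε ≤ 1 / 4) (hT : 0 < T) :
    ∫ c, |(∫ t in (0:ℝ)..T, Xz t ^ 4 * ∏ j, ff (t + c j)) - ∫ T' in (ε * T)..T, WW κ T' c| ∂(mB n 0 T) ≤
      ∫ t in Set.Ioi (0:ℝ), Dd κ ε T t * (Xz t ^ 4 * Jf T t ^ n) := by
  have : IsFiniteMeasure (mB n 0 T) := by unfold mB; infer_instance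
  have hj := joint (n := n) κ hκ hε hε1 hT
  have h1 : ∫ c, (∫ t in Set.Ioi (0:ℝ), Dd κ ε T t * Gc c t) ∂(mB n 0 T) =
      ∫ t in Set.Ioi (0:ℝ), Dd κ ε T t * (Xz t ^ 4 * Jf T t ^ n) := by
    rw [integral_integral_swap hj]
    refine integral_congr_ae (Eventually.of_forall fun t => ?_)
    simp only
    rw [integral_const_mul, inner]
  rw [← h1]
  refine integral_mono_of_nonneg (Eventually.of_forall fun c => abs_nonneg _) hj.integral_prod_left ?_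
  filter_upwards [mB_ae n T] with c hc
  exact pt κ hκ hε hε1 hT c hc

lemma P_int {n : ℕ} (κ : ℕ) (hκ : 1 ≤ κ) {ε T : ℝ} (hε : 0 < ε) (hε1 : ε ≤ 1 / 4) (hT : 0 < T) :
    IntegrableOn (fun t => Dd κ ε T t * (Xz t ^ 4 * Jf T t ^ n)) (Set.Ioi (0:ℝ)) := by
  have : IsFiniteMeasure (mB n 0 T) := by unfold mB; infer_instance
  have h := (joint (n := n) κ hκ hε hε1 hT).integral_prod_right
  refine h.congr (Eventually.of_forall fun t => ?_)
  simp only [Function.uncurry]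
  rw [integral_const_mul, inner]

/-- the part `t ≤ 4T` -/
lemma part1 {n : ℕ} (κ : ℕ) (hκ : 1 ≤ κ) {ε T J : ℝ} (hε : 0 < ε) (hε1 : ε ≤ 1 / 4) (hT : 0 < T)
    (hJ : ∀ t, 0 < t → t ≤ 4 * T → Jf T t ≤ J) :
    ∫ t in Set.Ioc (0:ℝ) (4 * T), Dd κ ε T t * (Xz t ^ 4 * Jf T t ^ n) ≤
      J ^ n * (M4 (2 * ε * T) + (∫ t in Set.Ioc ((1 - ε) * T) ((1 + ε) * T), Xz t ^ 4) +
        1 / (κ * ε ^ 2) * M4 (4 * T)) := by
  have hκ0 : (0:ℝ) < κ := by exact_mod_cast hκ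
  have hc : Continuous fun t => Xz t ^ 4 := Xz_cont.pow 4
  have hJ0 : 0 ≤ J := (Jf_nonneg T T).trans (hJ T hT (by linarith))
  have hsub : Set.Ioc (0:ℝ) (4 * T) ⊆ Set.Ioi 0 := fun x hx => hx.1
  have hi : IntegrableOn (fun t => Xz t ^ 4) (Set.Ioc (0:ℝ) (4 * T)) := hc.integrableOn_Ioc
  have i1 : IntegrableOn (fun t => (Set.Ioc 0 (2 * ε * T)).indicator (fun _ => (1:ℝ)) t * Xz t ^ 4)
      (Set.Ioc (0:ℝ) (4 * T)) := (ind_int _ _ hc).mono_set hsub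
  have hS2 : Set.Ioc ((1 - ε) * T) ((1 + ε) * T) ⊆ Set.Ioc (0:ℝ) (4 * T) := by
    intro x hx
    constructor
    · have := hx.1
      nlinarith
    · have := hx.2
      nlinarith
  have hS1 : Set.Ioc 0 (2 * ε * T) ⊆ Set.Ioc (0:ℝ) (4 * T) := by
    intro x hx
    exact ⟨hx.1, by have := hx.2; nlinarith⟩
  have e : ∀ S : Set ℝ, (fun t => S.indicator (fun _ => (1:ℝ)) t * Xz t ^ 4) =
      S.indicator (fun t => Xz t ^ 4) := by
    intro S
    funext t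
    by_cases ht : t ∈ S
    · rw [Set.indicator_of_mem ht, Set.indicator_of_mem ht, one_mul]
    · rw [Set.indicator_of_notMem ht, Set.indicator_of_notMem ht, zero_mul]
  have i2 : IntegrableOn (fun t => (Set.Ioc ((1 - ε) * T) ((1 + ε) * T)).indicator (fun _ => (1:ℝ)) t *
      Xz t ^ 4) (Set.Ioc (0:ℝ) (4 * T)) := by
    rw [e]
    exact hi.indicator measurableSet_Ioc
  have i3 : IntegrableOn (fun t => 1 / (κ * ε ^ 2) * Xz t ^ 4) (Set.Ioc (0:ℝ) (4 * T)) :=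
    hi.const_mul _
  have e1 : ∫ t in Set.Ioc (0:ℝ) (4 * T), (Set.Ioc 0 (2 * ε * T)).indicator (fun _ => (1:ℝ)) t * Xz t ^ 4 =
      M4 (2 * ε * T) := by
    rw [e, setIntegral_indicator measurableSet_Ioc, Set.inter_eq_right.mpr hS1]
    rfl
  have e2 : ∫ t in Set.Ioc (0:ℝ) (4 * T), (Set.Ioc ((1 - ε) * T) ((1 + ε) * T)).indicator
      (fun _ => (1:ℝ)) t * Xz t ^ 4 = ∫ t in Set.Ioc ((1 - ε) * T) ((1 + ε) * T), Xz t ^ 4 := by
    rw [e, setIntegral_indicator measurableSet_Ioc, Set.inter_eq_right.mpr hS2]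
  have e3 : ∫ t in Set.Ioc (0:ℝ) (4 * T), 1 / (κ * ε ^ 2) * Xz t ^ 4 = 1 / (κ * ε ^ 2) * M4 (4 * T) := by
    rw [integral_const_mul]
    rfl
  have i12 : IntegrableOn (fun t : ℝ => (Set.Ioc 0 (2 * ε * T)).indicator (fun _ => (1:ℝ)) t * Xz t ^ 4 +
      (Set.Ioc ((1 - ε) * T) ((1 + ε) * T)).indicator (fun _ => (1:ℝ)) t * Xz t ^ 4)
      (Set.Ioc (0:ℝ) (4 * T)) := i1.add i2
  have i123 : IntegrableOn (fun t : ℝ => (Set.Ioc 0 (2 * ε * T)).indicator (fun _ => (1:ℝ)) t * Xz t ^ 4 +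
      (Set.Ioc ((1 - ε) * T) ((1 + ε) * T)).indicator (fun _ => (1:ℝ)) t * Xz t ^ 4 +
      1 / (κ * ε ^ 2) * Xz t ^ 4) (Set.Ioc (0:ℝ) (4 * T)) := i12.add i3
  calc ∫ t in Set.Ioc (0:ℝ) (4 * T), Dd κ ε T t * (Xz t ^ 4 * Jf T t ^ n)
      ≤ ∫ t in Set.Ioc (0:ℝ) (4 * T), J ^ n * ((Set.Ioc 0 (2 * ε * T)).indicator
          (fun _ => (1:ℝ)) t * Xz t ^ 4 + (Set.Ioc ((1 - ε) * T) ((1 + ε) * T)).indicator
          (fun _ => (1:ℝ)) t * Xz t ^ 4 + 1 / (κ * ε ^ 2) * Xz t ^ 4) := by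
        refine setIntegral_mono_on ((P_int κ hκ hε hε1 hT).mono_set hsub) (i123.const_mul _)
          measurableSet_Ioc fun t ht => ?_
        have h1 := Dd_small κ hκ hε hε1 hT ht.1
        have h2 := Dd_nonneg κ ε T t
        have h3 : Jf T t ^ n ≤ J ^ n := pow_le_pow_left₀ (Jf_nonneg T t) (hJ t ht.1 ht.2) n
        have h4 : 0 ≤ Jf T t ^ n := pow_nonneg (Jf_nonneg T t) n
        have h5 : 0 ≤ Xz t ^ 4 := pow_nonneg (Xz_nonneg t) 4
        calc Dd κ ε T t * (Xz t ^ 4 * Jf T t ^ n) = Dd κ ε T t * Xz t ^ 4 * Jf T t ^ n := by ring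
          _ ≤ Dd κ ε T t * Xz t ^ 4 * J ^ n :=
            mul_le_mul_of_nonneg_left h3 (mul_nonneg h2 h5)
          _ ≤ (((Set.Ioc 0 (2 * ε * T)).indicator (fun _ => (1:ℝ)) t +
              (Set.Ioc ((1 - ε) * T) ((1 + ε) * T)).indicator (fun _ => (1:ℝ)) t +
              1 / (κ * ε ^ 2)) * Xz t ^ 4) * J ^ n :=
            mul_le_mul_of_nonneg_right (mul_le_mul_of_nonneg_right h1 h5) (pow_nonneg hJ0 n)
          _ = _ := by ring
    _ = _ := by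
        rw [integral_const_mul, integral_add i12 i3, integral_add i1 i2, e1, e2, e3]

/-- the constant of the tail -/
def Wn (n : ℕ) : ℝ := 331776 * 9216 ^ n * (((8 + 5 * n).factorial : ℝ) * 16 ^ (9 + 5 * n) * Real.exp 1)

/-- the part `t > 4T` -/
lemma part2 {n : ℕ} (κ : ℕ) (hκ : 1 ≤ κ) {ε T : ℝ} (hε : 0 < ε) (hε1 : ε ≤ 1 / 4) (hT : 1 ≤ T) :
    ∫ t in Set.Ioi (4 * T), Dd κ ε T t * (Xz t ^ 4 * Jf T t ^ n) ≤
      κ / ε * (Wn n * (Real.exp (-(κ / 2)) * T ^ (9 + 5 * n))) := by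
  have hκ0 : (0:ℝ) < κ := by exact_mod_cast hκ
  have hT0 : 0 < T := by linarith
  have hsub : Set.Ioi (4 * T) ⊆ Set.Ioi (0:ℝ) := Set.Ioi_subset_Ioi (by positivity)
  obtain ⟨ie, hie⟩ := int_exp hT
  set W : ℝ := κ / ε * (331776 * 9216 ^ n) * (Real.exp (-(κ / 2)) *
    (((8 + 5 * n).factorial : ℝ) * (16 * T) ^ (8 + 5 * n) * Real.exp 1)) with hW
  have hW0 : 0 ≤ W := by positivity
  calc ∫ t in Set.Ioi (4 * T), Dd κ ε T t * (Xz t ^ 4 * Jf T t ^ n)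
      ≤ ∫ t in Set.Ioi (4 * T), W * Real.exp (-(1 / (16 * T)) * t) := by
        refine setIntegral_mono_on ((P_int κ hκ hε hε1 hT0).mono_set hsub) (ie.const_mul _)
          measurableSet_Ioi fun t ht => ?_
        have ht4 : 4 * T < t := ht
        have ht0 : 0 < t := by linarith
        have h1 := Dd_tail κ hκ hε hε1 hT0 ht4
        have h2 := Dd_nonneg κ ε T t
        have h3 : Jf T t ^ n ≤ (9216 * (1 + t) ^ 5) ^ n :=
          pow_le_pow_left₀ (Jf_nonneg T t) (Jf_big hT ht4) n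
        have h4 : 0 ≤ Jf T t ^ n := pow_nonneg (Jf_nonneg T t) n
        have h5 : 0 ≤ Xz t ^ 4 := pow_nonneg (Xz_nonneg t) 4
        have h6 := Xz4_bd ht0.le
        have h7 := exp_poly κ (8 + 5 * n) hκ hT ht4
        calc Dd κ ε T t * (Xz t ^ 4 * Jf T t ^ n) ≤ (κ / ε * Real.exp (-(κ * t / (4 * T)))) *
            ((331776 * (1 + t) ^ 8) * (9216 * (1 + t) ^ 5) ^ n) :=
              mul_le_mul h1 (mul_le_mul h6 h3 h4 (by positivity)) (mul_nonneg h5 h4)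
                (by positivity)
          _ = κ / ε * (331776 * 9216 ^ n) * (Real.exp (-(κ * t / (4 * T))) * (1 + t) ^ (8 + 5 * n)) := by
              rw [mul_pow, ← pow_mul, pow_add]; ring
          _ ≤ κ / ε * (331776 * 9216 ^ n) * (Real.exp (-(κ / 2)) * (((8 + 5 * n).factorial : ℝ) *
              (16 * T) ^ (8 + 5 * n) * Real.exp 1) * Real.exp (-(1 / (16 * T)) * t)) :=
              mul_le_mul_of_nonneg_left h7 (by positivity)
          _ = _ := by rw [hW]; ring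
    _ = W * ∫ t in Set.Ioi (4 * T), Real.exp (-(1 / (16 * T)) * t) := integral_const_mul _ _
    _ ≤ W * (16 * T) := mul_le_mul_of_nonneg_left hie hW0
    _ = _ := by
        rw [hW, Wn]
        have e : 9 + 5 * n = (8 + 5 * n) + 1 := by ring
        rw [e, pow_succ, pow_succ, mul_pow]
        ring

lemma tail_small (n : ℕ) {ε T : ℝ} (hε : 0 < ε) (hT : 1 ≤ T) (hL : (22 + 10 * n : ℝ) ≤ Real.log T)
    (hTW : 8 * Wn n / ε ^ 2 ≤ T) (κ : ℕ) (hκ : Rng T κ) :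
    κ / ε * (Wn n * (Real.exp (-(κ / 2)) * T ^ (9 + 5 * n))) ≤ ε := by
  have hT0 : 0 < T := by linarith
  have hW : 0 < Wn n := by unfold Wn; positivity
  set L := Real.log T with hLd
  have hn : (0:ℝ) ≤ n := Nat.cast_nonneg n
  have hL0 : 0 < L := by linarith
  obtain ⟨hk1, hk2⟩ := hκ
  have e1 : L ^ 2 ≤ 2 * T := by
    have h := Real.pow_div_factorial_le_exp L hL0.le 2
    rw [hLd, Real.exp_log hT0] at h
    simp only [Nat.factorial, Nat.cast_ofNat, Nat.succ_eq_add_one] at h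
    rw [← hLd] at h
    norm_num at h
    linarith
  have e2 : T ^ (11 + 5 * n) ≤ Real.exp (κ / 2) := by
    have h : T ^ (11 + 5 * n) = Real.exp (((11 + 5 * n : ℕ) : ℝ) * L) := by
      rw [Real.exp_nat_mul, hLd, Real.exp_log hT0]
    rw [h]
    apply Real.exp_le_exp.mpr
    push_cast
    nlinarith
  have e3 : Real.exp (-(κ / 2)) * T ^ (9 + 5 * n) ≤ 1 / T ^ 2 := by
    rw [Real.exp_neg, inv_mul_eq_div, div_le_div_iff₀ (Real.exp_pos _) (by positivity), one_mul]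
    have e4 : T ^ (9 + 5 * n) * T ^ 2 = T ^ (11 + 5 * n) := by
      rw [← pow_add]; congr 1; omega
    rw [e4]
    exact e2
  calc κ / ε * (Wn n * (Real.exp (-(κ / 2)) * T ^ (9 + 5 * n))) ≤
      (4 * (2 * T)) / ε * (Wn n * (1 / T ^ 2)) := by
        apply mul_le_mul _ _ (by positivity) (by positivity)
        · apply div_le_div_of_nonneg_right _ hε.le
          linarith
        · exact mul_le_mul_of_nonneg_left e3 hW.le
    _ = (8 * Wn n / ε ^ 2) * (ε / T) := by field_simp; norm_num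
    _ ≤ T * (ε / T) := mul_le_mul_of_nonneg_right hTW (by positivity)
    _ = ε := by field_simp

theorem t_SHP (h1 : Pool.Agent.Y969.GP.S_SM) (_h2 : S_CTW)
    (h3 : ∃ C : ℝ, 0 < C ∧ ∀ᶠ T : ℝ in atTop, ∀ κ : ℕ, Rng T κ →
      ∫ t in Set.Ioi (0:ℝ), om κ (κ / T) t * Xz t ^ 4 ≤ C * Real.log T ^ 4) : S_SHP := by
  obtain ⟨C₁, hC₁, hSM⟩ := h1
  obtain ⟨C₃, hC₃, hW⟩ := h3
  have hW' : W4H C₃ := hW
  obtain ⟨C₄, hC₄, hM⟩ := M4_bd hC₃ hW'
  intro n
  refine ⟨(5 * C₁) ^ n * (3 * C₄ + 128 * C₃ + 1) + 1, by positivity, fun ε hε hε1 => ?_⟩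
  have hlog : ∀ x : ℝ, ∀ᶠ T : ℝ in atTop, x ≤ Real.log T := fun x =>
    Real.tendsto_log_atTop.eventually_ge_atTop _
  filter_upwards [near_T hC₃ hW' hε hε1, hlog (22 + 10 * n), hlog (65 * C₄ / ε ^ 3),
    eventually_ge_atTop 4, eventually_ge_atTop (8 * Wn n / ε ^ 2), eventually_ge_atTop (1 / ε)]
    with T g1 g2 g3 g4 g5 g6
  intro κ hκR
  have hT0 : 0 < T := by linarith
  have hn : (0:ℝ) ≤ n := Nat.cast_nonneg n
  set L := Real.log T with hLd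
  have hL1 : 1 ≤ L := by linarith
  have hκL : L ^ 2 ≤ κ := hκR.1
  have hκ1 : (1:ℝ) ≤ κ := by nlinarith
  have hκ1' : 1 ≤ κ := by exact_mod_cast hκ1
  have hκ0 : (0:ℝ) < κ := by linarith
  refine (mean_le κ hκ1' hε hε1 hT0).trans ?_
  have hP := P_int (n := n) κ hκ1' hε hε1 hT0
  have hsplit : ∫ t in Set.Ioi (0:ℝ), Dd κ ε T t * (Xz t ^ 4 * Jf T t ^ n) =
      (∫ t in Set.Ioc (0:ℝ) (4 * T), Dd κ ε T t * (Xz t ^ 4 * Jf T t ^ n)) +
        ∫ t in Set.Ioi (4 * T), Dd κ ε T t * (Xz t ^ 4 * Jf T t ^ n) := by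
    rw [← setIntegral_union (Set.Ioc_disjoint_Ioi le_rfl) measurableSet_Ioi
      (hP.mono_set fun x hx => hx.1) (hP.mono_set (Set.Ioi_subset_Ioi (by positivity))),
      Set.Ioc_union_Ioi_eq_Ioi (by positivity)]
  rw [hsplit]
  have p1 := part1 (n := n) κ hκ1' hε hε1 hT0 (J := 5 * C₁ * (T * L))
    (fun t ht0 ht => Jf_small hSM hC₁ (by linarith) ht0 ht)
  have p2 := part2 (n := n) (T := T) κ hκ1' hε hε1 (by linarith)
  have p3 := tail_small n hε (by linarith) g2 g5 κ hκR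
  set X := T * L ^ 4 with hX
  have hL4 : 1 ≤ L ^ 4 := one_le_pow₀ hL1
  have hεT : 1 ≤ ε * T := by
    rw [div_le_iff₀ hε] at g6
    linarith
  have hX1 : 1 ≤ ε * X := by
    rw [hX, ← mul_assoc]
    nlinarith
  have hXpos : 0 < X := by rw [hX]; positivity
  have q1 : M4 (2 * ε * T) ≤ 3 * C₄ * (ε * X) := by
    have h := hM T (2 * ε * T) (by positivity) (by nlinarith)
    rw [← hLd] at h
    calc M4 (2 * ε * T) ≤ C₄ * (2 * ε * T * L ^ 4 + 1) := h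
      _ ≤ C₄ * (2 * ε * T * L ^ 4 + ε * X) := by
          apply mul_le_mul_of_nonneg_left _ hC₄.le
          linarith
      _ = _ := by rw [hX]; ring
  have q2 : M4 (4 * T) ≤ 65 * C₄ * X := by
    have h := hM (4 * T) (4 * T) (by positivity) le_rfl
    have hl : Real.log (4 * T) ≤ 2 * L := by
      calc Real.log (4 * T) ≤ Real.log (T ^ 2) := Real.log_le_log (by linarith) (by nlinarith)
        _ = 2 * Real.log T := by rw [Real.log_pow]; norm_num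
    have hl0 : 0 ≤ Real.log (4 * T) := Real.log_nonneg (by linarith)
    have hl4 : Real.log (4 * T) ^ 4 ≤ (2 * L) ^ 4 := pow_le_pow_left₀ hl0 hl 4
    have hX2 : 1 ≤ X := by rw [hX]; nlinarith
    calc M4 (4 * T) ≤ C₄ * (4 * T * Real.log (4 * T) ^ 4 + 1) := h
      _ ≤ C₄ * (4 * T * (2 * L) ^ 4 + X) := by
          apply mul_le_mul_of_nonneg_left _ hC₄.le
          have := mul_le_mul_of_nonneg_left hl4 (show 0 ≤ 4 * T by positivity)
          linarith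
      _ = _ := by rw [hX]; ring
  have q3 : 1 / (κ * ε ^ 2) * M4 (4 * T) ≤ ε * X := by
    have hLL : 65 * C₄ / ε ^ 3 ≤ κ := by nlinarith
    rw [div_le_iff₀ (by positivity)] at hLL
    calc 1 / (κ * ε ^ 2) * M4 (4 * T) ≤ 1 / (κ * ε ^ 2) * (65 * C₄ * X) :=
          mul_le_mul_of_nonneg_left q2 (by positivity)
      _ = (65 * C₄) / (κ * ε ^ 2) * X := by ring
      _ ≤ ε * X := by
          apply mul_le_mul_of_nonneg_right _ hXpos.le
          rw [div_le_iff₀ (by positivity)]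
          calc 65 * C₄ ≤ κ * ε ^ 3 := hLL
            _ = _ := by ring
  have q4 : M4 (2 * ε * T) + (∫ t in Set.Ioc ((1 - ε) * T) ((1 + ε) * T), Xz t ^ 4) +
      1 / (κ * ε ^ 2) * M4 (4 * T) ≤ (3 * C₄ + 128 * C₃ + 1) * (ε * X) := by
    have g1' : ∫ t in Set.Ioc ((1 - ε) * T) ((1 + ε) * T), Xz t ^ 4 ≤ 128 * C₃ * (ε * X) := by
      refine g1.trans (le_of_eq ?_)
      ring
    linarith
  have q5 : (5 * C₁ * (T * L)) ^ n * (M4 (2 * ε * T) +
      (∫ t in Set.Ioc ((1 - ε) * T) ((1 + ε) * T), Xz t ^ 4) + 1 / (κ * ε ^ 2) * M4 (4 * T)) ≤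
      (5 * C₁) ^ n * (3 * C₄ + 128 * C₃ + 1) * (ε * (T ^ (n + 1) * L ^ (n + 4))) := by
    refine (mul_le_mul_of_nonneg_left q4 (by positivity)).trans (le_of_eq ?_)
    rw [hX, mul_pow, mul_pow T L, pow_succ T, pow_add L]
    ring
  have q6 : ε ≤ ε * (T ^ (n + 1) * L ^ (n + 4)) := by
    have a1 : 1 ≤ T ^ (n + 1) := one_le_pow₀ (by linarith)
    have a2 : 1 ≤ L ^ (n + 4) := one_le_pow₀ hL1
    have a3 : 1 ≤ T ^ (n + 1) * L ^ (n + 4) := by nlinarith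
    nlinarith
  calc (∫ t in Set.Ioc (0:ℝ) (4 * T), Dd κ ε T t * (Xz t ^ 4 * Jf T t ^ n)) +
        ∫ t in Set.Ioi (4 * T), Dd κ ε T t * (Xz t ^ 4 * Jf T t ^ n)
      ≤ (5 * C₁) ^ n * (3 * C₄ + 128 * C₃ + 1) * (ε * (T ^ (n + 1) * L ^ (n + 4))) +
        ε * (T ^ (n + 1) * L ^ (n + 4)) :=
        add_le_add (p1.trans q5) ((p2.trans p3).trans q6)
    _ = _ := by ring

end

end Pool.Agent.Y475.SX


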